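import Pool.Agent.Run7.h740.Vec3

/-!
# MP_a812b2_nt: the density theorem for a single irreducible representation

For every `ε > 0` there is a constant `C` such that for EVERY irreducible representation `ρ` of
`SL(2,ℤ)` whose kernel contains some `Γ(N)`, of dimension `d`, the eigenvalues `1/4 - ν_i ^ 2` of the
Laplacian on square integrable `ρ`-valued functions on the upper half plane which transform by `ρ`,
`ν_i ≥ ε` (with multiplicity), satisfy `∑ d ^ (2 ν_i) ≤ C d ^ (1 + ε)`.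
The level `N` does not enter.
-/

set_option autoImplicit false

open MeasureTheory
open scoped MatrixGroups UpperHalfPlane

namespace Pool.Agent.Results.MP_a812b2_nt.IrreducibleDensity

/-- `ρ` is irreducible: `d > 0` and the only invariant subspaces are `0` and the whole space. -/
def IsIrreducible {d : ℕ} (ρ : SL(2, ℤ) →* Matrix (Fin d) (Fin d) ℂ) : Prop :=
  0 < d ∧ ∀ W : Submodule ℂ (Fin d → ℂ),
    (∀ γ : SL(2, ℤ), ∀ v ∈ W, (ρ γ).mulVec v ∈ W) → W = ⊥ ∨ W = ⊤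

/-- `F` is a square integrable `ρ`-valued eigenfunction of the Laplacian `-y² (∂²/∂x² + ∂²/∂y²)`
with eigenvalue `1/4 - ν²`; its `d` coordinates are eigenfunctions for the kernel of `ρ`. -/
structure IsEigenform {d : ℕ} (ρ : SL(2, ℤ) →* Matrix (Fin d) (Fin d) ℂ) (ν : ℝ)
    (F : ℂ → Fin d → ℂ) : Prop where
  /-- the coordinates are smooth on the upper half plane -/
  smooth : ∀ a, ContDiffOn ℝ (⊤ : ℕ∞) (fun w => F w a) {w : ℂ | 0 < w.im}
  /-- `F (γ z) = ρ(γ) F(z)` -/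
  equivariant : ∀ (γ : SL(2, ℤ)) (z : ℍ), F ((γ • z : ℍ) : ℂ) = (ρ γ).mulVec (F (z : ℂ))
  /-- `-y² (F_xx + F_yy) = (1/4 - ν²) F` -/
  laplace : ∀ a, ∀ z : ℍ,
    -((z.im : ℂ) ^ 2) *
      (deriv (fun s : ℝ => deriv (fun t : ℝ => F ((t : ℂ) + (z.im : ℂ) * Complex.I) a) s) z.re
        + deriv (fun s : ℝ => deriv (fun t : ℝ => F ((z.re : ℂ) + (t : ℂ) * Complex.I) a) s) z.im)
      = ((1 / 4 - ν ^ 2 : ℝ) : ℂ) * F (z : ℂ) a
  /-- `F` is square integrable for `dx dy / y²` on the fundamental domain of `SL(2,ℤ)` -/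
  sqIntegrable : ∀ a, IntegrableOn (fun w : ℂ => ‖F w a‖ ^ 2 / w.im ^ 2)
    ((fun z : ℍ => (z : ℂ)) '' ModularGroup.fd)

/-- The density theorem for every irreducible representation `ρ` of `SL(2,ℤ)` with congruence
kernel, of dimension `d`: linearly independent square integrable `ρ`-valued eigenfunctions `F i` with
eigenvalues `1/4 - (ν i)²`, `ε ≤ ν i ≤ 1/2`, satisfy `∑ i, d ^ (2 ν i) ≤ C d ^ (1 + ε)` with `C`
depending only on `ε`; in particular their number is at most `C d ^ (1 - 2 α + ε)` if all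
`ν i ≥ α ≥ ε`. -/
theorem result : ∀ ε : ℝ, 0 < ε → ∃ C : ℝ, 0 < C ∧
    ∀ (d : ℕ) (ρ : SL(2, ℤ) →* Matrix (Fin d) (Fin d) ℂ),
    (∃ N : ℕ, 0 < N ∧ ∀ γ ∈ CongruenceSubgroup.Gamma N, ρ γ = 1) → IsIrreducible ρ →
    ∀ (k : ℕ) (ν : Fin k → ℝ) (F : Fin k → ℂ → Fin d → ℂ),
      (∀ i, ε ≤ ν i) → (∀ i, ν i ≤ 1 / 2) → (∀ i, IsEigenform ρ (ν i) (F i)) →
      LinearIndependent ℂ (fun i => fun z : ℍ => F i z) →
      (∑ i, (d : ℝ) ^ (2 * ν i) ≤ C * (d : ℝ) ^ (1 + ε)) ∧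
      ∀ α : ℝ, (∀ i, α ≤ ν i) → (k : ℝ) ≤ C * (d : ℝ) ^ (1 - 2 * α + ε) := by
  intro ε hε
  obtain ⟨C, hC, h⟩ := Run7.h740.density_irr ε hε
  refine ⟨C, hC, fun d ρ hρ hirr k ν F hν hν' hF hli => ?_⟩
  have h1 := h d ρ hρ hirr k ν F hν hν'
    (fun i => ⟨(hF i).smooth, (hF i).equivariant, (hF i).laplace, (hF i).sqIntegrable⟩) hli
  refine ⟨h1, fun α hα => ?_⟩
  have hn : (1 : ℝ) ≤ d := by exact_mod_cast hirr.1
  have hn0 : (0 : ℝ) < d := by linarith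
  have h2 : (k : ℝ) * (d : ℝ) ^ (2 * α) ≤ ∑ i, (d : ℝ) ^ (2 * ν i) := by
    have : (k : ℝ) * (d : ℝ) ^ (2 * α) = ∑ _i : Fin k, (d : ℝ) ^ (2 * α) := by simp
    rw [this]
    exact Finset.sum_le_sum fun i _ =>
      Real.rpow_le_rpow_of_exponent_le hn (by linarith [hα i])
  have h3 := h2.trans h1
  have h4 : (d : ℝ) ^ (1 + ε) = (d : ℝ) ^ (1 - 2 * α + ε) * (d : ℝ) ^ (2 * α) := by
    rw [← Real.rpow_add hn0]; congr 1; ring
  rw [h4, ← mul_assoc] at h3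
  exact le_of_mul_le_mul_right h3 (Real.rpow_pos_of_pos hn0 _)

end Pool.Agent.Results.MP_a812b2_nt.IrreducibleDensity
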