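import Pool.Agent.Run7.h307.SE.Fin

/-!
# `MP_a812b2_nt`: a density theorem without `ε`, uniform up to the eigenvalue `1/4`
-/

set_option autoImplicit false

open UpperHalfPlane MeasureTheory ModularGroup CongruenceSubgroup
open scoped MatrixGroups ENNReal

namespace Pool.Agent.Results.MP_a812b2_nt.LogFreeDensity

/-- `f` is a cusp form of eigenvalue `1/4 - ν ^ 2` on `Γ \ ℍ`: a smooth `Γ`-invariant square
integrable eigenfunction of the Laplacian whose constant terms at all cusps vanish. -/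
structure IsCuspForm (Γ : Subgroup SL(2, ℤ)) (ν : ℝ) (f : ℂ → ℂ) : Prop where
  smooth : ContDiffOn ℝ (⊤ : ℕ∞) f {w : ℂ | 0 < w.im}
  inv : ∀ γ ∈ Γ, ∀ z : ℍ, f ((γ • z : ℍ) : ℂ) = f (z : ℂ)
  eq : ∀ z : ℍ, -((z.im : ℂ) ^ 2) *
      (deriv (fun s : ℝ => deriv (fun t : ℝ => f ((t : ℂ) + (z.im : ℂ) * Complex.I)) s) z.re
        + deriv (fun s : ℝ => deriv (fun t : ℝ => f ((z.re : ℂ) + (t : ℂ) * Complex.I)) s) z.im)
      = ((1 / 4 - ν ^ 2 : ℝ) : ℂ) * f (z : ℂ)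
  sqint : ∀ γ : SL(2, ℤ), IntegrableOn (fun w : ℂ => ‖f w‖ ^ 2 / w.im ^ 2)
    ((fun z : ℍ => ((γ • z : ℍ) : ℂ)) '' ModularGroup.fd)
  cusp : ∀ N : ℕ, 0 < N → Gamma N ≤ Γ → ∀ γ : SL(2, ℤ), ∀ y : ℝ, 0 < y →
    ∫ x in (0 : ℝ)..N, f (((γ 0 0 : ℂ) * ((x : ℂ) + (y : ℂ) * Complex.I) + (γ 0 1 : ℂ)) /
      ((γ 1 0 : ℂ) * ((x : ℂ) + (y : ℂ) * Complex.I) + (γ 1 1 : ℂ))) = 0

open Pool.Agent.N799.DT Pool.Agent.Run7.h307.SE in
/-- **Theorem.**  There is an absolute constant `C` such that for every congruence subgroup `Γ` of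
`SL(2,ℤ)` and all linearly independent cusp forms on `Γ \ ℍ` with eigenvalues
`1/4 - ν i ^ 2 ≤ 1/4`, the sum of `[SL(2,ℤ) : Γ] ^ (ν i / 1600)` is at most
`C [SL(2,ℤ) : Γ] / log ([SL(2,ℤ) : Γ] + 1) ^ 3`. -/
theorem result : ∃ C : ℝ, 0 < C ∧ ∀ Γ : Subgroup SL(2, ℤ),
    (∃ N : ℕ, 0 < N ∧ Gamma N ≤ Γ) → ∀ (k : ℕ) (ν : Fin k → ℝ) (f : Fin k → ℂ → ℂ),
      (∀ i, 0 ≤ ν i) → (∀ i, ν i ≤ 1 / 2) → (∀ i, IsCuspForm Γ (ν i) (f i)) →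
      LinearIndependent ℂ (fun i => fun z : ℍ => f i z) →
      ∑ i, (Γ.index : ℝ) ^ (ν i / 1600) ≤ C * Γ.index / Real.log (Γ.index + 1) ^ 3 := by
  obtain ⟨C, hC, h⟩ := bound_CS
  refine ⟨C, hC, fun Γ hΓ k ν f hν0 hν hf hli => ?_⟩
  obtain ⟨N, hN⟩ := exists_level Γ hΓ
  have he : ∀ i, IsEigen Γ (ν i) (f i) := fun i =>
    ⟨(hf i).smooth, (hf i).inv, (hf i).eq, (hf i).sqint⟩
  refine h Γ N hN k ν (fun i => (he i).toLW hN.1 hN.2.1) hν0 hν (fun i => ⟨?_, ?_⟩) ?_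
  · exact (he i).mem_ES mv_all hN.1 hN.2.1
  · intro γ y hy
    rw [← (hf i).cusp N hN.1 hN.2.1 γ y hy]
    congr 1
    funext x
    unfold ext
    rw [dif_pos hy]
    change f i ((γ • (⟨⟨x, y⟩, hy⟩ : ℍ) : ℍ) : ℂ) = _
    rw [coe_specialLinearGroup_apply]
    have e1 : ((⟨⟨x, y⟩, hy⟩ : ℍ) : ℂ) = (x : ℂ) + (y : ℂ) * Complex.I := by
      simp [Complex.ext_iff]
    rw [e1]
    simp only [algebraMap_int_eq, eq_intCast, Complex.ofReal_intCast]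
  · exact LinearIndependent.of_comp (LW N).subtype hli

end Pool.Agent.Results.MP_a812b2_nt.LogFreeDensity
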