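import Pool.Agent.Run7.h740.LF4

/-!
# MP_a812b2_nt: a density theorem without `ε` for a single irreducible representation

There is an absolute constant `C` such that for EVERY irreducible representation `ρ` of `SL(2,ℤ)`
whose kernel contains some `Γ(N)`, of dimension `d`, the `ρ`-valued cusp forms with eigenvalues
`1/4 - ν_i ^ 2 ≤ 1/4` (with multiplicity) satisfy `∑ d ^ (ν_i / 16) ≤ C d / log (d + 1) ^ 3`.
The level does not enter.
-/

set_option autoImplicit false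

open MeasureTheory
open scoped MatrixGroups UpperHalfPlane

namespace Pool.Agent.Results.MP_a812b2_nt.LogFreeIrreducible

/-- `ρ` is irreducible: `d > 0` and the only invariant subspaces are `0` and the whole space. -/
def IsIrreducible {d : ℕ} (ρ : SL(2, ℤ) →* Matrix (Fin d) (Fin d) ℂ) : Prop :=
  0 < d ∧ ∀ W : Submodule ℂ (Fin d → ℂ),
    (∀ γ : SL(2, ℤ), ∀ v ∈ W, (ρ γ).mulVec v ∈ W) → W = ⊥ ∨ W = ⊤

/-- `F` is a `ρ`-valued cusp form with eigenvalue `1/4 - ν²` for the Laplacian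
`-y² (∂²/∂x² + ∂²/∂y²)`; its `d` coordinates are cusp forms for the kernel of `ρ`. -/
structure IsCuspForm {d : ℕ} (ρ : SL(2, ℤ) →* Matrix (Fin d) (Fin d) ℂ) (ν : ℝ)
    (F : ℂ → Fin d → ℂ) : Prop where
  /-- the coordinates are smooth on the upper half plane -/
  smooth : ∀ a, ContDiffOn ℝ (⊤ : ℕ∞) (fun w => F w a) {w : ℂ | 0 < w.im}
  /-- `F (γ z) = ρ(γ) F(z)` -/
  equivariant : ∀ (γ : SL(2, ℤ)) (z : ℍ), F ((γ • z : ℍ) : ℂ) = (ρ γ).mulVec (F (z : ℂ))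
  /-- `-y² (F_xx + F_yy) = (1/4 - ν²) F` -/
  laplace : ∀ a, ∀ z : ℍ,
    -((z.im : ℂ) ^ 2) *
      (deriv (fun s : ℝ => deriv (fun t : ℝ => F ((t : ℂ) + (z.im : ℂ) * Complex.I) a) s) z.re
        + deriv (fun s : ℝ => deriv (fun t : ℝ => F ((z.re : ℂ) + (t : ℂ) * Complex.I) a) s) z.im)
      = ((1 / 4 - ν ^ 2 : ℝ) : ℂ) * F (z : ℂ) a
  /-- `F` is square integrable for `dx dy / y²` on the fundamental domain of `SL(2,ℤ)` -/
  sqIntegrable : ∀ a, IntegrableOn (fun w : ℂ => ‖F w a‖ ^ 2 / w.im ^ 2)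
    ((fun z : ℍ => (z : ℂ)) '' ModularGroup.fd)
  /-- the constant term vanishes (by equivariance, at all cusps) -/
  cusp : ∀ N : ℕ, 0 < N → (∀ γ ∈ CongruenceSubgroup.Gamma N, ρ γ = 1) → ∀ a, ∀ y : ℝ, 0 < y →
    ∫ x in (0 : ℝ)..N, F ((x : ℂ) + (y : ℂ) * Complex.I) a = 0

/-- The log-free density theorem for every irreducible representation `ρ` of `SL(2,ℤ)` with
congruence kernel, of dimension `d`: linearly independent `ρ`-valued cusp forms `F i` with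
eigenvalues `1/4 - (ν i)²`, `0 ≤ ν i ≤ 1/2`, satisfy `∑ i, d ^ (ν i / 16) ≤ C d / log (d + 1) ^ 3`
with an absolute constant `C`; in particular their number is at most
`C d ^ (1 - α / 16) / log (d + 1) ^ 3` if all `ν i ≥ α ≥ 0`. -/
theorem result : ∃ C : ℝ, 0 < C ∧
    ∀ (d : ℕ) (ρ : SL(2, ℤ) →* Matrix (Fin d) (Fin d) ℂ),
    (∃ N : ℕ, 0 < N ∧ ∀ γ ∈ CongruenceSubgroup.Gamma N, ρ γ = 1) → IsIrreducible ρ →
    ∀ (k : ℕ) (ν : Fin k → ℝ) (F : Fin k → ℂ → Fin d → ℂ),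
      (∀ i, 0 ≤ ν i) → (∀ i, ν i ≤ 1 / 2) → (∀ i, IsCuspForm ρ (ν i) (F i)) →
      LinearIndependent ℂ (fun i => fun z : ℍ => F i z) →
      (∑ i, (d : ℝ) ^ (ν i / 16) ≤ C * d / Real.log (d + 1) ^ 3) ∧
      ∀ α : ℝ, (∀ i, α ≤ ν i) → (k : ℝ) ≤ C * (d : ℝ) ^ (1 - α / 16) / Real.log (d + 1) ^ 3 := by
  obtain ⟨C, hC, h⟩ := Run7.h740.LF.density_lf
  refine ⟨C, hC, fun d ρ hρ hirr k ν F hν hν' hF hli => ?_⟩
  have h1 := h d ρ hρ hirr k ν F hν hν'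
    (fun i => ⟨(hF i).smooth, (hF i).equivariant, (hF i).laplace, (hF i).sqIntegrable⟩)
    (fun i => (hF i).cusp) hli
  refine ⟨h1, fun α hα => ?_⟩
  have hn : (1 : ℝ) ≤ d := by exact_mod_cast hirr.1
  have hn0 : (0 : ℝ) < d := by linarith
  have h2 : (k : ℝ) * (d : ℝ) ^ (α / 16) ≤ ∑ i, (d : ℝ) ^ (ν i / 16) := by
    have : (k : ℝ) * (d : ℝ) ^ (α / 16) = ∑ _i : Fin k, (d : ℝ) ^ (α / 16) := by simp
    rw [this]
    exact Finset.sum_le_sum fun i _ =>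
      Real.rpow_le_rpow_of_exponent_le hn (by linarith [hα i])
  have h3 := h2.trans h1
  have h4 : C * d / Real.log (d + 1) ^ 3 =
      C * (d : ℝ) ^ (1 - α / 16) / Real.log (d + 1) ^ 3 * (d : ℝ) ^ (α / 16) := by
    have h5 : (d : ℝ) = (d : ℝ) ^ (1 - α / 16) * (d : ℝ) ^ (α / 16) := by
      rw [← Real.rpow_add hn0]
      simp
    calc C * d / Real.log (d + 1) ^ 3
        = C * ((d : ℝ) ^ (1 - α / 16) * (d : ℝ) ^ (α / 16)) / Real.log (d + 1) ^ 3 := by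
          rw [← h5]
      _ = _ := by ring
  rw [h4] at h3
  exact le_of_mul_le_mul_right h3 (Real.rpow_pos_of_pos hn0 _)

end Pool.Agent.Results.MP_a812b2_nt.LogFreeIrreducible
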