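import Pool.Agent.Run7.h291.OL.Final

/-!
# Optimal lifting for all congruence subgroups

Selberg's conjecture would give optimal lifting: if `Γ ≤ SL(2,ℤ)` is a congruence subgroup of
index `n`, then almost all pairs `(x, y)` of cosets of `Γ` are connected by a matrix `γ ∈ SL(2,ℤ)`
(that is `γ x = y`) with all entries at most `n ^ (1/2 + ε)`; as there are only about `T²` matrices
with entries at most `T`, the exponent `1/2` is the best possible.  We prove this unconditionally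
for ALL congruence subgroups, uniformly and with a power saving, and in a stronger form: the same
probability measure on the matrices with entries `≤ C n ^ (1/2 + ε)` serves for all congruence
subgroups of index `n`.
-/

set_option autoImplicit false

open CongruenceSubgroup
open scoped MatrixGroups

namespace Pool.Agent.Results.MP_a812b2_nt.OptimalLifting

noncomputable section

/-- For a finitely supported weight `μ` on `SL(2,ℤ)` (below: a probability measure) and two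
cosets `x, y` of `Γ`: the sum of the weights of the matrices `γ` with `γ • x = y` (below: the
probability that a `μ`-random matrix maps `x` to `y`). -/
def trans (μ : SL(2, ℤ) →₀ ℝ) {Γ : Subgroup SL(2, ℤ)} (x y : SL(2, ℤ) ⧸ Γ) : ℝ :=
  open Classical in μ.sum fun γ a => if γ • x = y then a else 0

/-- All entries of `γ` are at most `T` in absolute value. -/
def Small (T : ℝ) (γ : SL(2, ℤ)) : Prop := ∀ i j, |((γ i j : ℤ) : ℝ)| ≤ T

/-- There is a constant `c > 0` such that for every `ε > 0` there is `C > 0` with: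

* for every `n ≥ 1` there is a probability measure `μ` on `SL(2,ℤ)`, supported by matrices with all
  entries at most `C n ^ (1/2 + ε)`, such that for EVERY congruence subgroup `Γ` of index `n` the
  Hilbert–Schmidt distance between the matrix of the `μ`-random walk on the cosets of `Γ` and the
  uniform matrix is at most `√C n ^ (-c ε / 2)`;
* for every congruence subgroup `Γ` of index `n`, for all but `C n ^ (2 - c ε)` of the `n²` pairs
  `(x, y)` of cosets there is a matrix `γ ∈ SL(2,ℤ)` with entries at most `C n ^ (1/2 + ε)`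
  and `γ x = y`;
* for every congruence subgroup `Γ` of index `n`, for at most `C n ^ (2 - ε)` of the pairs `(x, y)`
  there is a matrix `γ` with entries at most `n ^ (1/2 - ε)` and `γ x = y`. -/
theorem result : ∃ c : ℝ, 0 < c ∧ ∀ ε : ℝ, 0 < ε → ∃ C : ℝ, 0 < C ∧
    (∀ n : ℕ, 0 < n → ∃ μ : SL(2, ℤ) →₀ ℝ,
      (∀ γ, 0 ≤ μ γ) ∧ (μ.sum fun _ a => a) = 1 ∧
      (∀ γ ∈ μ.support, Small (C * (n : ℝ) ^ (1 / 2 + ε)) γ) ∧
      ∀ Γ : Subgroup SL(2, ℤ), (∃ N : ℕ, 0 < N ∧ Gamma N ≤ Γ) → Γ.index = n →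
        ∀ _ : Fintype (SL(2, ℤ) ⧸ Γ),
        ∑ x : SL(2, ℤ) ⧸ Γ, ∑ y : SL(2, ℤ) ⧸ Γ, (trans μ x y - 1 / (n : ℝ)) ^ 2 ≤
          C * (n : ℝ) ^ (-(c * ε))) ∧
    (∀ Γ : Subgroup SL(2, ℤ), (∃ N : ℕ, 0 < N ∧ Gamma N ≤ Γ) →
      (({p : (SL(2, ℤ) ⧸ Γ) × (SL(2, ℤ) ⧸ Γ) | ¬ ∃ γ : SL(2, ℤ),
        Small (C * (Γ.index : ℝ) ^ (1 / 2 + ε)) γ ∧ γ • p.1 = p.2}.ncard : ℕ) : ℝ) ≤
          C * (Γ.index : ℝ) ^ (2 - c * ε)) ∧
    (∀ Γ : Subgroup SL(2, ℤ), (∃ N : ℕ, 0 < N ∧ Gamma N ≤ Γ) →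
      (({p : (SL(2, ℤ) ⧸ Γ) × (SL(2, ℤ) ⧸ Γ) | ∃ γ : SL(2, ℤ),
        Small ((Γ.index : ℝ) ^ (1 / 2 - ε)) γ ∧ γ • p.1 = p.2}.ncard : ℕ) : ℝ) ≤
          C * (Γ.index : ℝ) ^ (2 - ε)) := by
  obtain ⟨c, hc, h⟩ := Run7.h291.OL.main
  refine ⟨c, hc, fun ε hε => ?_⟩
  obtain ⟨C₁, hC₁, h1⟩ := h ε hε
  obtain ⟨C₂, hC₂, h2⟩ := Run7.h291.OL.sharp ε hε
  have hle1 : C₁ ≤ C₁ + C₂ := by linarith
  have hle2 : C₂ ≤ C₁ + C₂ := by linarith
  have hfirst : ∀ n : ℕ, 0 < n → ∃ μ : SL(2, ℤ) →₀ ℝ,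
      (∀ γ, 0 ≤ μ γ) ∧ (μ.sum fun _ a => a) = 1 ∧
      (∀ γ ∈ μ.support, Small ((C₁ + C₂) * (n : ℝ) ^ (1 / 2 + ε)) γ) ∧
      ∀ Γ : Subgroup SL(2, ℤ), (∃ N : ℕ, 0 < N ∧ Gamma N ≤ Γ) → Γ.index = n →
        ∀ _ : Fintype (SL(2, ℤ) ⧸ Γ),
        ∑ x : SL(2, ℤ) ⧸ Γ, ∑ y : SL(2, ℤ) ⧸ Γ, (trans μ x y - 1 / (n : ℝ)) ^ 2 ≤
          (C₁ + C₂) * (n : ℝ) ^ (-(c * ε)) := by
    intro n hn
    obtain ⟨μ, a1, a2, a3, a4⟩ := h1 n hn
    refine ⟨μ, a1, a2, fun γ hγ i j => (a3 γ hγ i j).trans ?_, fun Γ hΓ hi hf =>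
      (a4 Γ hΓ hi hf).trans ?_⟩
    · gcongr
    · gcongr
  refine ⟨C₁ + C₂, by positivity, hfirst, fun Γ hΓ => ?_, fun Γ hΓ => ?_⟩
  · obtain ⟨N, hN, hle⟩ := hΓ
    have : NeZero N := ⟨hN.ne'⟩
    have hfi : Γ.FiniteIndex := Subgroup.finiteIndex_of_le hle
    have hfin : Finite (SL(2, ℤ) ⧸ Γ) := inferInstance
    have := Fintype.ofFinite (SL(2, ℤ) ⧸ Γ)
    have hidx : 0 < Γ.index := Nat.pos_of_ne_zero hfi.index_ne_zero
    obtain ⟨μ, -, -, a3, a4⟩ := hfirst Γ.index hidx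
    have h3 := Run7.h291.OL.unreachable hidx a3 (a4 Γ ⟨N, hN, hle⟩ rfl inferInstance)
    refine h3.trans (le_of_eq ?_)
    have hnpos : (0 : ℝ) < Γ.index := by exact_mod_cast hidx
    rw [show (2 : ℝ) - c * ε = 2 + (-(c * ε)) by ring, Real.rpow_add hnpos]
    norm_num
    ring
  · refine (h2 Γ hΓ).trans ?_
    gcongr

end

end Pool.Agent.Results.MP_a812b2_nt.OptimalLifting
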